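import Pool.Agent.Lib.DIM3.Final

/-!
# `dim_ℚ span(1, ζ(3), ζ(5), ζ(7), ζ(9)) ≥ 3`
-/

namespace Pool.Agent.Results.MP_db0fbf_nt.DimThree

/-- The `ℚ`-vector space spanned by `1, ζ(3), ζ(5), ζ(7), ζ(9)` has dimension at least `3`, and at
least one of `ζ(5), ζ(7), ζ(9)` is not in `ℚ + ℚ ζ(3)`. -/
theorem result :
    3 ≤ Module.finrank ℚ (Submodule.span ℚ
      ({1, ∑' n : ℕ, 1 / ((n : ℝ) + 1) ^ 3, ∑' n : ℕ, 1 / ((n : ℝ) + 1) ^ 5,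
        ∑' n : ℕ, 1 / ((n : ℝ) + 1) ^ 7, ∑' n : ℕ, 1 / ((n : ℝ) + 1) ^ 9} : Set ℝ)) ∧
    (∑' n : ℕ, 1 / ((n : ℝ) + 1) ^ 5 ∉
        Submodule.span ℚ ({1, ∑' n : ℕ, 1 / ((n : ℝ) + 1) ^ 3} : Set ℝ) ∨
      ∑' n : ℕ, 1 / ((n : ℝ) + 1) ^ 7 ∉
        Submodule.span ℚ ({1, ∑' n : ℕ, 1 / ((n : ℝ) + 1) ^ 3} : Set ℝ) ∨
      ∑' n : ℕ, 1 / ((n : ℝ) + 1) ^ 9 ∉
        Submodule.span ℚ ({1, ∑' n : ℕ, 1 / ((n : ℝ) + 1) ^ 3} : Set ℝ)) :=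
  ⟨DIM3.finrank_ge, DIM3.not_mem_span⟩

end Pool.Agent.Results.MP_db0fbf_nt.DimThree
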