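import Pool.Agent.Lib.ZP.Final

/-!
# At least one of `ζ(7), ζ(9), ζ(11), ζ(13)` is irrational
-/

namespace Pool.Agent.Results.MP_db0fbf_nt.OneOf7to13

/-- At least one of `ζ(7)`, `ζ(9)`, `ζ(11)`, `ζ(13)` is irrational. -/
theorem result :
    Irrational (∑' n : ℕ, 1 / ((n : ℝ) + 1) ^ 7) ∨ Irrational (∑' n : ℕ, 1 / ((n : ℝ) + 1) ^ 9) ∨
    Irrational (∑' n : ℕ, 1 / ((n : ℝ) + 1) ^ 11) ∨
    Irrational (∑' n : ℕ, 1 / ((n : ℝ) + 1) ^ 13) :=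
  ZP.one_of_7_13

end Pool.Agent.Results.MP_db0fbf_nt.OneOf7to13
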