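import Pool.Agent.Lib.ZP.Final9

/-!
# At least one of `ζ(9), ζ(11), ζ(13), ζ(15), ζ(17), ζ(19)` is irrational
-/

namespace Pool.Agent.Results.MP_db0fbf_nt.OneOf9to19

/-- At least one of `ζ(9)`, `ζ(11)`, `ζ(13)`, `ζ(15)`, `ζ(17)`, `ζ(19)` is irrational. -/
theorem result :
    Irrational (∑' n : ℕ, 1 / ((n : ℝ) + 1) ^ 9) ∨ Irrational (∑' n : ℕ, 1 / ((n : ℝ) + 1) ^ 11) ∨
    Irrational (∑' n : ℕ, 1 / ((n : ℝ) + 1) ^ 13) ∨ Irrational (∑' n : ℕ, 1 / ((n : ℝ) + 1) ^ 15) ∨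
    Irrational (∑' n : ℕ, 1 / ((n : ℝ) + 1) ^ 17) ∨
    Irrational (∑' n : ℕ, 1 / ((n : ℝ) + 1) ^ 19) :=
  ZP.one_of_9_19

end Pool.Agent.Results.MP_db0fbf_nt.OneOf9to19
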