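import Pool.Agent.Lib.ZT.Final
import Pool.Agent.Lib.Z579.NoZ57
import Pool.Agent.Lib.Z579.T3T2b
import Pool.Agent.Lib.Z579.E6U1
import Pool.Agent.Lib.Z579.E6U24
import Pool.Agent.Lib.Z579.E6U3
import Pool.Agent.Lib.Z579.E6W1
import Pool.Agent.Lib.Z579.E6W2

/-!
# At least two of `ζ(5), ζ(7), ..., ζ(15)` are irrational, one of them among `ζ(5), ζ(7)`
-/

namespace Pool.Agent.Results.MP_db0fbf_nt.TwoOf5to15

open Z579.EM in
/-- There are two different odd numbers `s < t ≤ 15` with `s = 5` or `s = 7` such that `ζ(s)` and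
`ζ(t)` are both irrational. -/
theorem result : ∃ s t : ℕ, (s = 5 ∨ s = 7) ∧ Odd t ∧ s < t ∧ t ≤ 15 ∧
    Irrational (∑' n : ℕ, 1 / ((n : ℝ) + 1) ^ s) ∧
    Irrational (∑' n : ℕ, 1 / ((n : ℝ) + 1) ^ t) := by
  rcases one_of_57 u1 u2 u3 u4 w1 w2 with h5 | h7
  · rcases one_of_T3 u1 u2 u3 u4 w1 w2 with h | h | h | h | h
    · exact ⟨5, 7, Or.inl rfl, by decide, by norm_num, by norm_num, h5, h⟩
    · exact ⟨5, 9, Or.inl rfl, by decide, by norm_num, by norm_num, h5, h⟩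
    · exact ⟨5, 11, Or.inl rfl, by decide, by norm_num, by norm_num, h5, h⟩
    · exact ⟨5, 13, Or.inl rfl, by decide, by norm_num, by norm_num, h5, h⟩
    · exact ⟨5, 15, Or.inl rfl, by decide, by norm_num, by norm_num, h5, h⟩
  · rcases ZT.one_of_5_9 with h | h | h | h | h
    · exact ⟨5, 7, Or.inl rfl, by decide, by norm_num, by norm_num, h, h7⟩
    · exact ⟨7, 9, Or.inr rfl, by decide, by norm_num, by norm_num, h7, h⟩
    · exact ⟨7, 11, Or.inr rfl, by decide, by norm_num, by norm_num, h7, h⟩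
    · exact ⟨7, 13, Or.inr rfl, by decide, by norm_num, by norm_num, h7, h⟩
    · exact ⟨7, 15, Or.inr rfl, by decide, by norm_num, by norm_num, h7, h⟩

end Pool.Agent.Results.MP_db0fbf_nt.TwoOf5to15
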